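import Pool.Agent.Helper19.HV.Curve

/-!
# Project HV (MP_bae8ce_ag): module EXS (extension step)
-/

set_option autoImplicit false

open Polynomial
open scoped TensorProduct

namespace Pool.Agent.Helper19.HV

noncomputable section

open PL

private theorem exs_factor {E E' N : Type*} [AddCommGroup E] [Module ℚ E] [AddCommGroup E'] [Module ℚ E']
    [AddCommGroup N] [Module ℚ N] (T : E →ₗ[ℚ] E') (L : E →ₗ[ℚ] N)
    (h : LinearMap.ker T ≤ LinearMap.ker L) : ∃ g : E' →ₗ[ℚ] N, ∀ x, g (T x) = L x := by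
  obtain ⟨g, hg⟩ := LinearMap.exists_extend
    (((LinearMap.ker T).liftQ L h) ∘ₗ T.quotKerEquivRange.symm.toLinearMap)
  refine ⟨g, fun x => ?_⟩
  have h1 := LinearMap.congr_fun hg (T.rangeRestrict x)
  have h2 : T.quotKerEquivRange.symm (T.rangeRestrict x) = (LinearMap.ker T).mkQ x := by
    rw [LinearEquiv.symm_apply_eq]
    rfl
  rw [LinearMap.comp_apply, LinearMap.comp_apply, LinearEquiv.coe_coe, h2] at h1
  exact h1

theorem mEXS {F N : Type} [Field F] [AddCommGroup N] [Module ℚ N] (k : ℕ)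
    (hTEN : ∀ {G : Type} [Field G] (S : Submodule ℚ (ZP G)) (α : ZP G),
      α ∈ LinearMap.ker (δ S) ↔ ∀ l : V G →ₗ[ℚ] ℚ,
        Finsupp.linearCombination ℚ (fun x => l (cl x) • (Finsupp.single x 1 : ZP G)) α ∈ S)
    (hRIG : ∀ α : ZP (RatFunc F), (∀ l : V (RatFunc F) →ₗ[ℚ] ℚ,
      Finsupp.linearCombination ℚ
        (fun x => l (cl x) • (Finsupp.single x 1 : ZP (RatFunc F))) α ∈
          R (k + 2) (RatFunc F) ⊔ LinearMap.range (mapP (RatFunc.C : F →+* RatFunc F))) →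
      α ∈ R (k + 3) (RatFunc F) ⊔ LinearMap.range (mapP (RatFunc.C : F →+* RatFunc F)))
    (ψ : P1 (RatFunc F) → N) (h : Kil (k + 3) ψ) (hc : ∀ c, ψ (cst c) = 0) :
    ∃ B : P1 (RatFunc F) → (V (RatFunc F) →ₗ[ℚ] N), Kil (k + 2) B ∧
      (∀ c, B (cst c) = 0) ∧ ∀ x, ψ x = B x (cl x) := by
  set S0 : Submodule ℚ (ZP (RatFunc F)) :=
    R (k + 2) (RatFunc F) ⊔ LinearMap.range (mapP (RatFunc.C : F →+* RatFunc F)) with hS0
  let T : ZP (RatFunc F) →ₗ[ℚ] ((ZP (RatFunc F) ⧸ S0) ⊗[ℚ] V (RatFunc F)) :=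
    Finsupp.linearCombination ℚ fun x => S0.mkQ (Finsupp.single x 1) ⊗ₜ[ℚ] cl x
  let L : ZP (RatFunc F) →ₗ[ℚ] N := Finsupp.linearCombination ℚ ψ
  have hmap : ∀ c : P1 F, mapP (RatFunc.C : F →+* RatFunc F) (Finsupp.single c 1)
      = Finsupp.single (cst c) 1 := by
    intro c
    unfold mapP cst
    rw [Finsupp.lmapDomain_apply, Finsupp.mapDomain_single]
  have hcomp : L ∘ₗ mapP (RatFunc.C : F →+* RatFunc F) = 0 := by
    refine Finsupp.lhom_ext' fun c => LinearMap.ext_ring ?_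
    show L (mapP (RatFunc.C : F →+* RatFunc F) (Finsupp.single c 1)) = 0
    rw [hmap]
    show Finsupp.linearCombination ℚ ψ (Finsupp.single (cst c) 1) = 0
    rw [Finsupp.linearCombination_single, hc, smul_zero]
  have hle : R (k + 3) (RatFunc F) ⊔ LinearMap.range (mapP (RatFunc.C : F →+* RatFunc F))
      ≤ LinearMap.ker L := by
    refine sup_le (fun α hα => h α hα) ?_
    rintro _ ⟨β, rfl⟩
    exact LinearMap.congr_fun hcomp β
  have hker : LinearMap.ker T ≤ LinearMap.ker L := by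
    intro α hα
    refine hle (hRIG α ?_)
    exact (hTEN S0 α).1 hα
  obtain ⟨g, hg⟩ := exs_factor T L hker
  let Φ : ZP (RatFunc F) →ₗ[ℚ] (V (RatFunc F) →ₗ[ℚ] N) :=
    ((TensorProduct.mk ℚ (ZP (RatFunc F) ⧸ S0) (V (RatFunc F))).compr₂ g) ∘ₗ S0.mkQ
  have hΦ0 : ∀ α ∈ S0, Φ α = 0 := by
    intro α hα
    have h1 : S0.mkQ α = 0 := by
      rw [Submodule.mkQ_apply, Submodule.Quotient.mk_eq_zero]
      exact hα
    show ((TensorProduct.mk ℚ (ZP (RatFunc F) ⧸ S0) (V (RatFunc F))).compr₂ g) (S0.mkQ α) = 0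
    rw [h1, map_zero]
  refine ⟨fun x => Φ (Finsupp.single x 1), ?_, ?_, ?_⟩
  · intro α hα
    have h1 : Finsupp.linearCombination ℚ (fun x => Φ (Finsupp.single x 1)) = Φ := by
      refine Finsupp.lhom_ext' fun x => LinearMap.ext_ring ?_
      show Finsupp.linearCombination ℚ (fun x => Φ (Finsupp.single x 1)) (Finsupp.single x 1)
        = Φ (Finsupp.single x 1)
      rw [Finsupp.linearCombination_single, one_smul]
    rw [h1]
    exact hΦ0 α (Submodule.mem_sup_left hα)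
  · intro c
    refine hΦ0 _ (Submodule.mem_sup_right ?_)
    exact ⟨Finsupp.single c 1, hmap c⟩
  · intro x
    have h1 := hg (Finsupp.single x 1)
    have h2 : T (Finsupp.single x 1) = S0.mkQ (Finsupp.single x 1) ⊗ₜ[ℚ] cl x := by
      show Finsupp.linearCombination ℚ _ (Finsupp.single x 1) = _
      rw [Finsupp.linearCombination_single, one_smul]
    have h3 : L (Finsupp.single x 1) = ψ x := by
      show Finsupp.linearCombination ℚ ψ (Finsupp.single x 1) = _
      rw [Finsupp.linearCombination_single, one_smul]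
    rw [h2, h3] at h1
    exact h1.symm

end

end Pool.Agent.Helper19.HV
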